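import Pool.Agent.Helper93.FZ.St

/-!
# Project FZ, module CNT: counting
-/

set_option autoImplicit false

namespace Pool.Agent.Helper94.FZ

open Finset Pool.Agent.Helper93.FZ

private theorem sumc {n : ℕ} (f : Fin n → ℝ) (a : ℝ) (h : ∑ i, f i = n - a) : ∑ i, (1 - f i) = a := by
  rw [Finset.sum_sub_distrib, h]
  simp

private theorem sq_le {n : ℕ} (k : ℝ) (f : Fin n → ℝ) (h0 : ∀ i, 0 ≤ f i) (hk : ∀ i, f i ≤ k) :
    ∑ i, f i * f i ≤ k * ∑ i, f i := by
  rw [Finset.mul_sum]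
  exact Finset.sum_le_sum fun i _ => mul_le_mul_of_nonneg_right (hk i) (h0 i)

theorem hCNT : StCNT := by
  intro n k A B C u v w h hn hk
  have hn0 : (0 : ℝ) < n := by exact_mod_cast hn
  -- complements
  have rA : ∀ r, ∑ c, (1 - A r c) = u r := fun r => sumc _ _ (h.rA r)
  have rC : ∀ r, ∑ s, (1 - C s r) = u r := fun r => sumc _ _ (h.rC r)
  have cB : ∀ c, ∑ s, (1 - B c s) = v c := fun c => sumc _ _ (h.cB c)
  have cA : ∀ c, ∑ r, (1 - A r c) = v c := fun c => sumc _ _ (h.cA c)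
  have sC : ∀ s, ∑ r, (1 - C s r) = w s := fun s => sumc _ _ (h.sC s)
  have sB : ∀ s, ∑ c, (1 - B c s) = w s := fun s => sumc _ _ (h.sB s)
  have hu : ∀ r, 0 ≤ u r := fun r => by
    rw [← rA r]; exact Finset.sum_nonneg fun c _ => by linarith [h.A1 r c]
  have hv : ∀ c, 0 ≤ v c := fun c => by
    rw [← cB c]; exact Finset.sum_nonneg fun s _ => by linarith [h.B1 c s]
  have hw : ∀ s, 0 ≤ w s := fun s => by
    rw [← sC s]; exact Finset.sum_nonneg fun r _ => by linarith [h.C1 s r]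
  have e1 : ∑ c, v c = ∑ r, u r := by
    have : ∑ c, v c = ∑ c, ∑ r, (1 - A r c) := Finset.sum_congr rfl fun c _ => (cA c).symm
    rw [this, Finset.sum_comm]
    exact Finset.sum_congr rfl fun r _ => rA r
  have e2 : ∑ s, w s = ∑ r, u r := by
    have : ∑ s, w s = ∑ s, ∑ r, (1 - C s r) := Finset.sum_congr rfl fun s _ => (sC s).symm
    rw [this, Finset.sum_comm]
    exact Finset.sum_congr rfl fun r _ => rC r
  have hk0 : 0 ≤ k := (hu ⟨0, hn⟩).trans (h.uk ⟨0, hn⟩)
  have hH0 : 0 ≤ ∑ r, u r := Finset.sum_nonneg fun r _ => hu r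
  have hHk : ∑ r, u r ≤ n * k := by
    calc ∑ r, u r ≤ ∑ _r : Fin n, k := Finset.sum_le_sum fun r _ => h.uk r
      _ = n * k := by simp
  set H := ∑ r, u r with hH
  -- the triple sums
  have s1 : ∑ _r : Fin n, ∑ _c : Fin n, ∑ _s : Fin n, (1 : ℝ) = (n : ℝ) ^ 3 := by
    simp; ring
  have s2 : ∑ r : Fin n, ∑ c : Fin n, ∑ _s : Fin n, (1 - A r c) = n * H := by
    have : ∀ r : Fin n, ∑ c : Fin n, ∑ _s : Fin n, (1 - A r c) = n * u r := by
      intro r
      rw [← rA r, Finset.mul_sum]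
      exact Finset.sum_congr rfl fun c _ => by simp; ring
    rw [Finset.sum_congr rfl fun r _ => this r, ← Finset.mul_sum]
  have s3 : ∑ _r : Fin n, ∑ c : Fin n, ∑ s : Fin n, (1 - B c s) = n * H := by
    have : ∑ c : Fin n, ∑ s : Fin n, (1 - B c s) = H := by
      rw [Finset.sum_congr rfl fun c _ => cB c, e1]
    rw [this]; simp
  have s4 : ∑ r : Fin n, ∑ _c : Fin n, ∑ s : Fin n, (1 - C s r) = n * H := by
    have : ∀ r : Fin n, ∑ _c : Fin n, ∑ s : Fin n, (1 - C s r) = n * u r := by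
      intro r
      rw [rC r]; simp
    rw [Finset.sum_congr rfl fun r _ => this r, ← Finset.mul_sum]
  have s5 : ∑ r : Fin n, ∑ c : Fin n, ∑ s : Fin n, (1 - A r c) * (1 - B c s) = ∑ c, v c * v c := by
    rw [Finset.sum_comm]
    apply Finset.sum_congr rfl
    intro c _
    have : ∀ r : Fin n, ∑ s : Fin n, (1 - A r c) * (1 - B c s) = (1 - A r c) * v c := by
      intro r
      rw [← Finset.mul_sum, cB c]
    rw [Finset.sum_congr rfl fun r _ => this r, ← Finset.sum_mul, cA c]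
  have s6 : ∑ r : Fin n, ∑ c : Fin n, ∑ s : Fin n, (1 - B c s) * (1 - C s r) = ∑ s, w s * w s := by
    have : ∀ r : Fin n, ∑ c : Fin n, ∑ s : Fin n, (1 - B c s) * (1 - C s r) =
        ∑ s : Fin n, w s * (1 - C s r) := by
      intro r
      rw [Finset.sum_comm]
      exact Finset.sum_congr rfl fun s _ => by rw [← Finset.sum_mul, sB s]
    rw [Finset.sum_congr rfl fun r _ => this r, Finset.sum_comm]
    exact Finset.sum_congr rfl fun s _ => by rw [← Finset.mul_sum, sC s]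
  have s7 : ∑ r : Fin n, ∑ c : Fin n, ∑ s : Fin n, (1 - C s r) * (1 - A r c) = ∑ r, u r * u r := by
    apply Finset.sum_congr rfl
    intro r _
    have : ∀ c : Fin n, ∑ s : Fin n, (1 - C s r) * (1 - A r c) = u r * (1 - A r c) := by
      intro c
      rw [← Finset.sum_mul, rC r]
    rw [Finset.sum_congr rfl fun c _ => this c, ← Finset.mul_sum, rA r]
  have key : ∑ r, ∑ c, ∑ s, A r c * B c s * C s r ≤
      ∑ r : Fin n, ∑ c : Fin n, ∑ s : Fin n, (1 - (1 - A r c) - (1 - B c s) - (1 - C s r) +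
        (1 - A r c) * (1 - B c s) + (1 - B c s) * (1 - C s r) + (1 - C s r) * (1 - A r c)) := by
    refine Finset.sum_le_sum fun r _ => Finset.sum_le_sum fun c _ => Finset.sum_le_sum fun s _ => ?_
    have h1 : 0 ≤ (1 - A r c) * (1 - B c s) * (1 - C s r) :=
      mul_nonneg (mul_nonneg (by linarith [h.A1 r c]) (by linarith [h.B1 c s])) (by linarith [h.C1 s r])
    nlinarith [h1]
  have key2 : ∑ r : Fin n, ∑ c : Fin n, ∑ s : Fin n, (1 - (1 - A r c) - (1 - B c s) - (1 - C s r) +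
        (1 - A r c) * (1 - B c s) + (1 - B c s) * (1 - C s r) + (1 - C s r) * (1 - A r c)) =
      (n : ℝ) ^ 3 - n * H - n * H - n * H + ∑ c, v c * v c + ∑ s, w s * w s + ∑ r, u r * u r := by
    rw [← s7, ← s6, ← s5, ← s1]
    nth_rewrite 1 [← s2]
    nth_rewrite 1 [← s3]
    nth_rewrite 1 [← s4]
    simp only [Finset.sum_add_distrib, Finset.sum_sub_distrib]
  have q1 := sq_le k v hv h.vk
  have q2 := sq_le k w hw h.wk
  have q3 := sq_le k u hu h.uk
  rw [e1] at q1
  rw [e2] at q2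
  refine ⟨e1, e2, hH0, hHk, hk0, hu, hv, hw, ?_, ?_, ?_⟩
  · rw [key2] at key
    linarith
  · nlinarith [mul_nonneg hH0 (by linarith : (0:ℝ) ≤ n - k)]
  · have h1 : 0 ≤ (n - k) * (n * k - H) := mul_nonneg (by linarith) (by linarith)
    have h2 : 0 < (n : ℝ) * (n ^ 2 - 3 * k * n + 3 * k ^ 2) := by
      apply mul_pos hn0
      nlinarith [sq_nonneg ((n : ℝ) - 3 / 2 * k), sq_nonneg k, mul_pos hn0 hn0]
    nlinarith [h1, h2]

end Pool.Agent.Helper94.FZ
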